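import Pool.Agent.W792.GK.Stm

set_option autoImplicit false

namespace Pool.Agent.W736.GK

open MeasureTheory Pool.Agent.W792.GK

lemma opb_entry {n : Type} [Fintype n] [DecidableEq n] {M : Matrix n n ℂ} {c : ℝ} (hc : 0 ≤ c)
    (h : OpB M c) (i j : n) : ‖M i j‖ ≤ c := by
  have h1 := h (Pi.single j 1)
  have h2 : ∑ i, ‖(Pi.single j (1 : ℂ) : n → ℂ) i‖ ^ 2 = 1 := by
    rw [Finset.sum_eq_single j]
    · simp
    · intro b _ hb
      simp [Pi.single_eq_of_ne hb]
    · intro h
      exact absurd (Finset.mem_univ j) h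
  rw [h2, mul_one] at h1
  have h3 : ‖M i j‖ ^ 2 ≤ c ^ 2 := by
    refine le_trans ?_ h1
    have h4 : M i j = (M.mulVec (Pi.single j 1)) i := by
      rw [Matrix.mulVec_single_one]
      rfl
    rw [h4]
    exact Finset.single_le_sum (f := fun i => ‖(M.mulVec (Pi.single j 1)) i‖ ^ 2)
      (fun _ _ => by positivity) (Finset.mem_univ i)
  exact (sq_le_sq₀ (norm_nonneg _) hc).1 h3

lemma opb_of_entry {n : Type} [Fintype n] {M : Matrix n n ℂ} {c : ℝ} (hc : 0 ≤ c)
    (h : ∀ i j, ‖M i j‖ ≤ c) : OpB M (Fintype.card n * c) := by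
  intro u
  have h1 : ∀ i, ‖(M.mulVec u) i‖ ^ 2 ≤ c ^ 2 * (Fintype.card n * ∑ j, ‖u j‖ ^ 2) := by
    intro i
    have h2 : ‖(M.mulVec u) i‖ ≤ c * ∑ j, ‖u j‖ := by
      have h3 : (M.mulVec u) i = ∑ j, M i j * u j := rfl
      rw [h3, Finset.mul_sum]
      refine (norm_sum_le _ _).trans (Finset.sum_le_sum fun j _ => ?_)
      rw [norm_mul]
      exact mul_le_mul_of_nonneg_right (h i j) (norm_nonneg _)
    calc ‖(M.mulVec u) i‖ ^ 2 ≤ (c * ∑ j, ‖u j‖) ^ 2 := by gcongr
      _ = c ^ 2 * (∑ j, ‖u j‖) ^ 2 := by ring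
      _ ≤ c ^ 2 * (Fintype.card n * ∑ j, ‖u j‖ ^ 2) := by
        have := sq_sum_le_card_mul_sum_sq (s := (Finset.univ : Finset n)) (f := fun j => ‖u j‖)
        rw [Finset.card_univ] at this
        gcongr
  calc ∑ i, ‖(M.mulVec u) i‖ ^ 2 ≤ ∑ _i : n, c ^ 2 * (Fintype.card n * ∑ j, ‖u j‖ ^ 2) :=
        Finset.sum_le_sum fun i _ => h1 i
    _ = (Fintype.card n * c) ^ 2 * ∑ i, ‖u i‖ ^ 2 := by
      rw [Finset.sum_const, Finset.card_univ, nsmul_eq_mul]
      ring

lemma imM_diag {n : Type} [Fintype n] (M : Matrix n n ℂ) (i : n) : ‖imM M i i‖ ^ 2 = (M i i).im ^ 2 := by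
  have h1 : imM M i i = ((M i i).im : ℂ) := by
    unfold imM
    rw [Matrix.smul_apply, Matrix.sub_apply, Matrix.conjTranspose_apply, smul_eq_mul]
    have h2 : M i i - star (M i i) = 2 * Complex.I * ((M i i).im : ℂ) := by
      apply Complex.ext <;> simp
      ring
    rw [h2]
    field_simp
  rw [h1, Complex.norm_real, Real.norm_eq_abs, sq_abs]

lemma clamp_eq {R t : ℝ} (h : t ∈ Set.Icc (-R) R) : clamp R t = t := by
  unfold clamp
  rw [min_eq_right h.2, max_eq_right h.1]

lemma abs_clamp {R t : ℝ} (hR : 0 ≤ R) : |clamp R t| ≤ R := by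
  unfold clamp
  rw [abs_le]
  refine ⟨le_max_left _ _, max_le (by linarith) (min_le_left _ _)⟩

theorem main : S_ALLZ → S_P2 → S_GRID → S_TI → S_GR → S_FM := by
  intro hALLZ hP2 hGRID hTI hGR Q _ _ _ κ hκ s R η B ε hs hR hη hη1 hB hε
  classical
  obtain ⟨m, hm⟩ : ∃ m : ℤ, m = ⌈B / η⌉ := ⟨_, rfl⟩
  have hm0 : 0 ≤ m := by rw [hm]; exact Int.ceil_nonneg (by positivity)
  obtain ⟨S, hS⟩ : ∃ S : Finset ℤ, S = Finset.Icc (-m) m := ⟨_, rfl⟩
  have hSn : (0 : ℤ) ∈ S := by rw [hS, Finset.mem_Icc]; constructor <;> omega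
  obtain ⟨N, hN⟩ : ∃ N : ℝ, N = (S.card : ℝ) := ⟨_, rfl⟩
  have hN0 : 0 < N := by
    rw [hN]
    exact_mod_cast Finset.card_pos.2 ⟨0, hSn⟩
  have hNle : N * η ≤ 2 * B + 3 := by
    have h1 : N = 2 * (m : ℝ) + 1 := by
      rw [hN, hS, Int.card_Icc]
      have : ((m + 1 - -m).toNat : ℤ) = 2 * m + 1 := by omega
      exact_mod_cast this
    have h2 : (m : ℝ) < B / η + 1 := by rw [hm]; exact Int.ceil_lt_add_one _
    have h3 : (m : ℝ) * η < B + η := by
      have := mul_lt_mul_of_pos_right h2 hη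
      rwa [add_mul, div_mul_cancel₀ _ hη.ne', one_mul] at this
    rw [h1]
    nlinarith
  have hz : ∀ k, (zk η k).im = η := fun k => rfl
  choose δf nf hδf hall using fun k : ℤ => hALLZ Q κ hκ s R hs hR (zk η k) (by rw [hz]; exact hη)
    (1 / (2 * N)) (by positivity)
  refine ⟨S.inf' ⟨0, hSn⟩ δf, S.sup nf, (Finset.lt_inf'_iff _).2 fun k _ => hδf k, ?_⟩
  intro J _ _ A p ν _ hν hA
  have hpm : IsProbabilityMeasure (pm Q J ν) := by
    unfold pm
    infer_instance
  have hadm : ∀ k ∈ S, Adm s (δf k) (nf k) A := by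
    intro k hk
    refine ⟨hA.1, hA.2.1, fun n hn hn' i j => ?_⟩
    exact (hA.2.2 n hn (hn'.trans (Finset.le_sup hk)) i j).trans (Finset.inf'_le _ hk)
  obtain ⟨g1, g2, g3, g4, -, -⟩ := hGR Q J κ hκ A hA.1 p
  -- almost every potential is bounded by R
  have hae : ∀ᵐ v ∂(pm Q J ν), ∀ q, v q ∈ Set.Icc (-R) R := by
    rw [ae_all_iff]
    intro q
    have h1 : ∀ᵐ t ∂ν, t ∈ Set.Icc (-R) R := hν
    exact (measurePreserving_eval (fun _ : Q × J => ν) q).quasiMeasurePreserving.ae h1
  -- abbreviations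
  let G : ℤ → (Q × J → ℝ) → Matrix Q Q ℂ := fun k v => gr κ A v (zk η k) p
  have hGc : ∀ k, Continuous (G k) := fun k => g3 (zk η k) (by rw [hz]; exact hη.ne')
  have hGe : ∀ k x y, Continuous fun v => G k v x y := fun k x y =>
    (continuous_apply y).comp ((continuous_apply x).comp (hGc k))
  have hGb : ∀ k v x y, ‖G k v x y‖ ≤ 1 / η := by
    intro k v x y
    exact opb_entry (by positivity) (g4 (zk η k) (by rw [hz]; exact hη) v).2.2 x y
  have hGim : ∀ k v x y, |(G k v x y).im| ≤ 1 / η := fun k v x y =>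
    (Complex.abs_im_le_norm _).trans (hGb k v x y)
  have hint1 : ∀ k x, Integrable (fun v => (G k v x x).im) (pm Q J ν) := fun k x =>
    Integrable.of_bound (Complex.continuous_im.comp (hGe k x x)).measurable.aestronglyMeasurable
      (1 / η) (Filter.Eventually.of_forall fun v => hGim k v x x)
  have hint2 : ∀ k x, Integrable (fun v => (G k v x x).im ^ 2) (pm Q J ν) := fun k x =>
    Integrable.of_bound ((Complex.continuous_im.comp (hGe k x x)).pow 2).measurable.aestronglyMeasurable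
      ((1 / η) ^ 2) (Filter.Eventually.of_forall fun v => by
        rw [Real.norm_eq_abs, abs_pow]
        gcongr
        exact hGim k v x x)
  have hint3 : ∀ k x y, Integrable (fun v => ‖imM (G k v) x y‖ ^ 2) (pm Q J ν) := by
    intro k x y
    have e : ∀ v, imM (G k v) x y = (1 / (2 * Complex.I)) * (G k v x y - (starRingEnd ℂ) (G k v y x)) :=
      fun v => rfl
    have hc : Continuous fun v => imM (G k v) x y := by
      simp only [e]
      exact continuous_const.mul ((hGe k x y).sub (Complex.continuous_conj.comp (hGe k y x)))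
    refine Integrable.of_bound (hc.norm.pow 2).measurable.aestronglyMeasurable
      ((1 / 2 * (1 / η + 1 / η)) ^ 2) (Filter.Eventually.of_forall fun v => ?_)
    rw [Real.norm_eq_abs, abs_of_nonneg (by positivity)]
    have h1 : ‖imM (G k v) x y‖ ≤ 1 / 2 * (1 / η + 1 / η) := by
      rw [e, norm_mul]
      have h2 : ‖(1 / (2 * Complex.I) : ℂ)‖ = 1 / 2 := by simp
      rw [h2]
      refine mul_le_mul_of_nonneg_left ?_ (by norm_num)
      refine (norm_sub_le _ _).trans (add_le_add (hGb k v x y) ?_)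
      rw [RCLike.norm_conj]
      exact hGb k v y x
    gcongr
  -- the quantities
  let y : ℤ → ℝ := fun k => ∫ v, (G k v 0 0).im ^ 2 ∂(pm Q J ν)
  let t : ℤ → ℝ := fun k => ∫ v, (G k v 0 0).im ∂(pm Q J ν)
  have hne : Nonempty Q := ⟨0⟩
  have hcard : (0 : ℝ) < Fintype.card Q := by exact_mod_cast Fintype.card_pos
  have hkey : ∀ k ∈ S, ∀ a : ℝ, 0 < a → y k ≤ a / η + 1 / (a * s ^ 2) * (t k + 1 / η * (1 / N)) := by
    intro k hk a ha
    have hP := hP2 Q (Q × J → ℝ) (pm Q J ν) (fun v => dd κ (fun q => clamp R (v q)) p) (G k) s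
      (zk η k) hs (by rw [hz]; exact hη)
      (by
        intro x y
        have e : (fun v : Q × J → ℝ => dd κ (fun q => clamp R (v q)) p x y) =
            fun v => κ (x - y) + (if x = y then ((max (-R) (min R (v (x, p))) : ℝ) : ℂ) else 0) := rfl
        have hcont : Continuous fun v : Q × J → ℝ =>
            κ (x - y) + (if x = y then ((max (-R) (min R (v (x, p))) : ℝ) : ℂ) else 0) := by
          by_cases hxy : x = y
          · simp only [if_pos hxy]
            fun_prop
          · simp only [if_neg hxy]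
            fun_prop
        rw [e]
        exact hcont.measurable)
      (fun x y => (hGe k x y).measurable)
      ⟨Fintype.card Q * ((∑ x, ‖κ x‖) + R), fun v => by
        refine opb_of_entry (by positivity) fun x y => ?_
        have e : dd κ (fun q => clamp R (v q)) p x y =
            κ (x - y) + (if x = y then ((clamp R (v (x, p)) : ℝ) : ℂ) else 0) := rfl
        rw [e]
        refine (norm_add_le _ _).trans (add_le_add ?_ ?_)
        · exact Finset.single_le_sum (f := fun x => ‖κ x‖) (fun _ _ => norm_nonneg _)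
            (Finset.mem_univ (x - y))
        · split_ifs
          · rw [Complex.norm_real, Real.norm_eq_abs]
            exact abs_clamp hR.le
          · rw [norm_zero]; exact hR.le⟩
      (fun v => g2 _)
      (fun v => (g4 (zk η k) (by rw [hz]; exact hη) v).1)
      (fun v => (g4 (zk η k) (by rw [hz]; exact hη) v).2.1)
      (fun v => (g4 (zk η k) (by rw [hz]; exact hη) v).2.2)
      (mg κ A ν (zk η k) p) (fun x y => rfl) a ha
    rw [hz] at hP
    obtain ⟨hl1, hl2⟩ := hall k J A p ν hν (hadm k hk)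
    have hL1 : ∫ w, e1 (1 - (dd κ (fun q => clamp R (w q)) p - zk η k • (1 : Matrix Q Q ℂ) -
        ((s ^ 2 : ℝ) : ℂ) • mg κ A ν (zk η k) p) * G k w) ∂(pm Q J ν) ≤ 1 / (2 * N) := by
      refine le_trans (le_of_eq ?_) hl1
      refine integral_congr_ae ?_
      filter_upwards [hae] with v hv
      have : (fun q => clamp R (v q)) = v := funext fun q => clamp_eq (hv q)
      rw [this]
      rfl
    have hL2 : ∫ w, e1 (1 - G k w * (dd κ (fun q => clamp R (w q)) p - zk η k • (1 : Matrix Q Q ℂ) -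
        ((s ^ 2 : ℝ) : ℂ) • mg κ A ν (zk η k) p)) ∂(pm Q J ν) ≤ 1 / (2 * N) := by
      refine le_trans (le_of_eq ?_) hl2
      refine integral_congr_ae ?_
      filter_upwards [hae] with v hv
      have : (fun q => clamp R (v q)) = v := funext fun q => clamp_eq (hv q)
      rw [this]
      rfl
    have hT : (∫ w, ∑ x, (G k w x x).im ∂(pm Q J ν)) / Fintype.card Q = t k := by
      rw [integral_finset_sum _ fun x _ => hint1 k x]
      have : ∀ x ∈ (Finset.univ : Finset Q), ∫ v, (G k v x x).im ∂(pm Q J ν) = t k := fun x _ =>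
        hTI Q J κ A p ν (fun c => c.im) (zk η k) x
      rw [Finset.sum_congr rfl this, Finset.sum_const, Finset.card_univ, nsmul_eq_mul]
      field_simp
    have hY : y k ≤ (∫ w, ∑ x, ∑ y, ‖imM (G k w) x y‖ ^ 2 ∂(pm Q J ν)) / Fintype.card Q := by
      rw [le_div_iff₀ hcard]
      have h1 : y k * Fintype.card Q = ∫ v, ∑ x, (G k v x x).im ^ 2 ∂(pm Q J ν) := by
        rw [integral_finset_sum _ fun x _ => hint2 k x]
        have : ∀ x ∈ (Finset.univ : Finset Q), ∫ v, (G k v x x).im ^ 2 ∂(pm Q J ν) = y k := fun x _ =>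
          hTI Q J κ A p ν (fun c => c.im ^ 2) (zk η k) x
        rw [Finset.sum_congr rfl this, Finset.sum_const, Finset.card_univ, nsmul_eq_mul]
        ring
      rw [h1]
      refine integral_mono (integrable_finset_sum _ fun x _ => hint2 k x)
        (integrable_finset_sum _ fun x _ => integrable_finset_sum _ fun y _ => hint3 k x y) ?_
      intro v
      refine Finset.sum_le_sum fun x _ => ?_
      rw [← imM_diag]
      exact Finset.single_le_sum (f := fun y => ‖imM (G k v) x y‖ ^ 2) (fun _ _ => by positivity)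
        (Finset.mem_univ x)
    refine hY.trans (hP.trans ?_)
    rw [hT]
    have h3 : 1 / (2 * N) + 1 / (2 * N) = 1 / N := by field_simp; norm_num
    gcongr
    rw [← h3]
    exact add_le_add hL1 hL2
  -- sum of the t k
  have htsum : ∑ k ∈ S, t k ≤ 5 / η := by
    have h1 : ∑ k ∈ S, t k = ∫ v, ∑ k ∈ S, (G k v 0 0).im ∂(pm Q J ν) :=
      (integral_finset_sum _ fun k _ => hint1 k 0).symm
    rw [h1]
    have h2 : ∫ v, ∑ k ∈ S, (G k v 0 0).im ∂(pm Q J ν) ≤ ∫ _v, 5 / η ∂(pm Q J ν) := by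
      refine integral_mono (integrable_finset_sum _ fun k _ => hint1 k 0) (integrable_const _) ?_
      intro v
      have := (hGRID (Q × J) (ham κ A v) (g1 v) η hη m (0, p)).2
      rw [← hS] at this
      exact this
    refine h2.trans ?_
    simp
  obtain ⟨w, hw⟩ : ∃ w : ℝ, w = Real.sqrt ((B + 1) * η) := ⟨_, rfl⟩
  have hw0 : 0 < w := by rw [hw]; exact Real.sqrt_pos.2 (by positivity)
  have hw2 : w ^ 2 = (B + 1) * η := by rw [hw]; exact Real.sq_sqrt (by positivity)
  rw [← hw]
  have hQf : ∫ v, Qf κ A η B v p ∂(pm Q J ν) = η ^ 2 * ∑ k ∈ S, y k := by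
    unfold Qf
    rw [integral_const_mul, ← hm, ← hS]
    congr 1
    exact integral_finset_sum _ fun k _ => hint2 k 0
  rw [hQf]
  obtain ⟨a, ha⟩ : ∃ a : ℝ, a = w / ((B + 1) * s) := ⟨_, rfl⟩
  have ha0 : 0 < a := by rw [ha]; positivity
  have hsum : ∑ k ∈ S, y k ≤ ∑ k ∈ S, (a / η + 1 / (a * s ^ 2) * (t k + 1 / η * (1 / N))) :=
    Finset.sum_le_sum fun k hk => hkey k hk a ha0
  have hsum2 : ∑ k ∈ S, (a / η + 1 / (a * s ^ 2) * (t k + 1 / η * (1 / N))) =
      N * (a / η) + 1 / (a * s ^ 2) * (∑ k ∈ S, t k + N * (1 / η * (1 / N))) := by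
    rw [Finset.sum_add_distrib, ← Finset.mul_sum, Finset.sum_add_distrib, Finset.sum_const,
      Finset.sum_const, nsmul_eq_mul, nsmul_eq_mul, ← hN]
  have h4 : N * (1 / η * (1 / N)) = 1 / η := by field_simp
  have h5 : ∑ k ∈ S, y k ≤ N * (a / η) + 1 / (a * s ^ 2) * (6 / η) := by
    refine hsum.trans ?_
    rw [hsum2, h4]
    have h6 : ∑ k ∈ S, t k + 1 / η ≤ 6 / η := by
      have : 6 / η = 5 / η + 1 / η := by ring
      rw [this]
      linarith
    gcongr
  have h6 : η ^ 2 * ∑ k ∈ S, y k ≤ N * η * a + 6 * η / (a * s ^ 2) := by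
    calc η ^ 2 * ∑ k ∈ S, y k ≤ η ^ 2 * (N * (a / η) + 1 / (a * s ^ 2) * (6 / η)) := by gcongr
      _ = N * η * a + 6 * η / (a * s ^ 2) := by field_simp
  have h7 : N * η * a ≤ 3 * w / s := by
    calc N * η * a ≤ (2 * B + 3) * a := by gcongr
      _ ≤ (3 * (B + 1)) * a := by
        apply mul_le_mul_of_nonneg_right _ ha0.le
        linarith
      _ = 3 * w / s := by
        rw [ha]
        field_simp
  have h8 : 6 * η / (a * s ^ 2) = 6 * w / s := by
    rw [ha]
    rw [div_eq_div_iff (by positivity) (by positivity)]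
    have e : w / ((B + 1) * s) * s ^ 2 * (6 * w) = 6 * w ^ 2 * s / (B + 1) := by
      field_simp
    have e2 : 6 * w * (w / ((B + 1) * s) * s ^ 2) = 6 * w ^ 2 * s / (B + 1) := by
      field_simp
    rw [e2, hw2]
    field_simp
  have h9 : 3 * w / s + 6 * w / s ≤ 10 / s * w := by
    have : 10 / s * w = 3 * w / s + 6 * w / s + w / s := by ring
    rw [this]
    have : 0 < w / s := by positivity
    linarith
  linarith

end Pool.Agent.W736.GK
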